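import Pool.Agent.Y798.FC.Stm2

/-!
# The Tauberian theorem for Euler products of unitary matrices with a pole at `s = 1`
-/

set_option autoImplicit false

namespace Pool.Agent.Y37.FC

open Complex Filter Topology ComplexConjugate NumberField IsDedekindDomain
  Pool.Agent.W540.BE Pool.Agent.TH553.RS Pool.Agent.TH553.ST Pool.Agent.Y798.JL H332.PIT

section

variable {K : Type} [Field K] [NumberField K]

variable (K) in
/-- the part of the prime powers -/
noncomputable def dd (n : ℕ) : ℝ :=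
  LamK K n - Real.log n * ((fiber_finite (F := K) n).toFinset.card : ℝ)

theorem dd_nonneg (n : ℕ) : 0 ≤ dd K n := sub_nonneg.2 (log_nf_le n)

theorem dd_le (n : ℕ) : dd K n ≤ (Module.finrank ℚ K : ℝ) ^ 2 *
    (if n.Prime then 0 else ArithmeticFunction.vonMangoldt.residueClass (0 : ZMod 1) n) := by
  split_ifs with h
  · unfold dd
    rw [LamK_prime_eq h, sub_self, mul_zero]
  · have h1 : ArithmeticFunction.vonMangoldt.residueClass (0 : ZMod 1) n =
        ArithmeticFunction.vonMangoldt n := by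
      unfold ArithmeticFunction.vonMangoldt.residueClass
      rw [Set.indicator_of_mem]
      exact Subsingleton.elim _ _
    rw [h1]
    have h2 : (0 : ℝ) ≤ Real.log n * ((fiber_finite (F := K) n).toFinset.card : ℝ) :=
      mul_nonneg (Real.log_natCast_nonneg n) (Nat.cast_nonneg _)
    have h3 := LamK_le (K := K) n
    unfold dd
    linarith

theorem dd_summable : Summable fun n : ℕ => dd K n / n := by
  refine Summable.of_nonneg_of_le (fun n => div_nonneg (dd_nonneg n) (Nat.cast_nonneg n)) (fun n => ?_)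
    ((ArithmeticFunction.vonMangoldt.summable_residueClass_non_primes_div
      (0 : ZMod 1)).mul_left ((Module.finrank ℚ K : ℝ) ^ 2))
  rw [← mul_div_assoc]
  exact div_le_div_of_nonneg_right (dd_le n) (Nat.cast_nonneg n)

/-- the terms of the series of the prime powers on the closed half plane -/
theorem norm_term_le {s : ℂ} (hs : 1 ≤ s.re) (n : ℕ) :
    ‖LSeries.term (fun n => (dd K n : ℂ)) s n‖ ≤ dd K n / n := by
  rcases eq_or_ne n 0 with rfl | hn
  · rw [LSeries.term_zero, norm_zero]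
    simp
  · rw [LSeries.term_of_ne_zero hn, norm_div, Complex.norm_real, Real.norm_of_nonneg (dd_nonneg n),
      Complex.norm_natCast_cpow_of_pos (Nat.pos_of_ne_zero hn)]
    have h1 : (1 : ℝ) ≤ n := by exact_mod_cast Nat.one_le_iff_ne_zero.2 hn
    refine div_le_div_of_nonneg_left (dd_nonneg n) (by linarith) ?_
    calc (n : ℝ) = (n : ℝ) ^ (1 : ℝ) := (Real.rpow_one _).symm
      _ ≤ (n : ℝ) ^ s.re := Real.rpow_le_rpow_of_exponent_le h1 hs

theorem summ_dd {s : ℂ} (hs : 1 ≤ s.re) : LSeriesSummable (fun n => (dd K n : ℂ)) s :=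
  Summable.of_norm_bounded dd_summable fun n => norm_term_le hs n

theorem cont_dd : ContinuousOn (LSeries fun n => (dd K n : ℂ)) {s : ℂ | 1 ≤ s.re} := by
  unfold LSeries
  refine continuousOn_tsum (fun n => ?_) dd_summable fun n s hs => norm_term_le hs n
  refine Continuous.continuousOn ?_
  rcases eq_or_ne n 0 with rfl | hn
  · simp only [LSeries.term_zero]
    exact continuous_const
  · have h1 : (fun s : ℂ => LSeries.term (fun n => (dd K n : ℂ)) s n) =
        fun s : ℂ => (dd K n : ℂ) / (n : ℂ) ^ s := by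
      funext s
      rw [LSeries.term_of_ne_zero hn]
    rw [h1]
    have hn' : (n : ℂ) ≠ 0 := by exact_mod_cast hn
    refine continuous_const.div ?_ fun s => ?_
    · exact continuous_id.const_cpow (Or.inl hn')
    · rw [Ne, Complex.cpow_eq_zero_iff]
      exact fun h => hn' h.1

theorem lc_one (n : ℕ) : lc (fun _ : HeightOneSpectrum (𝓞 K) => (1 : ℂ)) n =
    (LamK K n : ℂ) - (dd K n : ℂ) := by
  rw [lc_eq]
  unfold nf dd
  rw [Finset.sum_const, nsmul_eq_mul]
  push_cast
  ring

theorem S_one {s : ℂ} (hs : 1 < s.re) : S (fun _ : HeightOneSpectrum (𝓞 K) => (1 : ℂ)) s =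
    LL K s - LSeries (fun n => (dd K n : ℂ)) s := by
  have h1 : lc (fun _ : HeightOneSpectrum (𝓞 K) => (1 : ℂ)) =
      (fun n => (LamK K n : ℂ)) - fun n => (dd K n : ℂ) := by
    funext n
    rw [lc_one]
    rfl
  unfold S
  rw [h1, LSeries_sub (LamK_summable hs) (summ_dd hs.le)]
  rfl

theorem S_sub {t : HeightOneSpectrum (𝓞 K) → ℂ} {B : ℝ} (ht : ∀ v, ‖t v‖ ≤ B) (c : ℂ) {s : ℂ}
    (hs : 1 < s.re) : S (fun v => t v - c) s =
      S t s - c * S (fun _ : HeightOneSpectrum (𝓞 K) => (1 : ℂ)) s := by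
  have h1 : lc (fun v => t v - c) = lc t - c • lc (fun _ : HeightOneSpectrum (𝓞 K) => (1 : ℂ)) := by
    funext n
    simp only [Pi.sub_apply, Pi.smul_apply, smul_eq_mul]
    rw [lc_eq, lc_eq, lc_eq]
    unfold nf
    rw [Finset.sum_sub_distrib, Finset.sum_const, Finset.sum_const, nsmul_eq_mul, nsmul_eq_mul]
    ring
  have h2 : LSeriesSummable (lc fun _ : HeightOneSpectrum (𝓞 K) => (1 : ℂ)) s :=
    summ_lc (B := 1) (fun v => by simp) hs
  unfold S
  rw [h1, LSeries_sub (summ_lc ht hs) (h2.smul c), LSeries_smul]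

theorem mn_add_const {t : HeightOneSpectrum (𝓞 K) → ℂ} {c : ℂ}
    (h : Tendsto (mn fun v => t v - c) atTop (𝓝 0)) : Tendsto (mn t) atTop (𝓝 c) := by
  have h1 := h.add_const c
  rw [zero_add] at h1
  refine h1.congr' ?_
  filter_upwards [card_ev (K := K)] with n hn
  have hn' : ((upto K n).card : ℂ) ≠ 0 := by exact_mod_cast hn
  unfold mn
  rw [Complex.real_smul, Complex.real_smul, Finset.sum_sub_distrib, Finset.sum_const, nsmul_eq_mul]
  push_cast
  field_simp
  ring

/-- the logarithmic derivative near a point of the line -/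
theorem logd {L Λ : ℂ → ℂ} {s0 : ℂ} (hs0 : s0.re = 1) {m : ℤ} (h5 : MeromorphicAt Λ s0)
    (h6 : ∀ᶠ s in 𝓝 s0, (1 : ℝ) < s.re → Λ s = L s)
    (h7 : meromorphicOrderAt Λ s0 = (m : WithTop ℤ)) :
    ∃ g : ℂ → ℂ, AnalyticAt ℂ g s0 ∧ g s0 ≠ 0 ∧ ∀ᶠ z in 𝓝 s0, (1 : ℝ) < z.re →
      deriv L z / L z = m / (z - s0) + deriv g z / g z := by
  obtain ⟨g, h10, h11, h12⟩ := (meromorphicOrderAt_eq_int_iff h5).1 h7
  refine ⟨g, h10, h11, ?_⟩
  rw [eventually_nhdsWithin_iff] at h12
  have hg0 : ∀ᶠ z in 𝓝 s0, g z ≠ 0 := h10.continuousAt.eventually_ne h11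
  have hgd : ∀ᶠ z in 𝓝 s0, AnalyticAt ℂ g z := h10.eventually_analyticAt
  filter_upwards [h12.eventually_nhds, h6.eventually_nhds, hg0, hgd] with z hz1 hz2 hz3 hz4 hre
  have hopen : {w : ℂ | (1 : ℝ) < w.re} ∈ 𝓝 z := isOpen_re.mem_nhds hre
  have h1 : L =ᶠ[𝓝 z] fun w => (w - s0) ^ m * g w := by
    filter_upwards [hz1, hz2, hopen] with w hw1 hw2 hw3
    have hw3' : (1 : ℝ) < w.re := hw3
    have hne : w ≠ s0 := by
      rintro rfl
      rw [hs0] at hw3'
      exact lt_irrefl _ hw3'
    rw [← hw2 hw3', hw1 hne, smul_eq_mul]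
  have hne : z - s0 ≠ 0 := by
    intro h
    rw [sub_eq_zero] at h
    rw [h, hs0] at hre
    exact lt_irrefl _ hre
  have h2 : HasDerivAt (fun w : ℂ => (w - s0) ^ m) (m * (z - s0) ^ (m - 1) * 1) z := by
    have ha : HasDerivAt (fun w : ℂ => w - s0) 1 z := (hasDerivAt_id' z).sub_const s0
    exact HasDerivAt.comp (h₂ := fun w : ℂ => w ^ m) (h := fun w : ℂ => w - s0) z
      (hasDerivAt_zpow m (z - s0) (Or.inl hne)) ha
  have h3 := h2.mul hz4.differentiableAt.hasDerivAt
  have h4 : deriv L z = m * (z - s0) ^ (m - 1) * 1 * g z + (z - s0) ^ m * deriv g z := by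
    rw [h1.deriv_eq]
    exact h3.deriv
  rw [h4, h1.eq_of_nhds, zpow_sub_one₀ hne]
  have h8 : (z - s0) ^ m ≠ 0 := zpow_ne_zero _ hne
  field_simp

end

theorem t_Taub : Pool.Agent.Y798.FC.StmTaub := by
  intro K _ _ κ _ _ A hA c h
  choose α h1 h2 h3 using fun v => exists_eig (hA v)
  have hL : ∀ s : ℂ, 1 < s.re →
      LU A s = ∏' v, (∏ j, (1 - α v j * ((nm K v : ℕ) : ℂ) ^ (-s)))⁻¹ := by
    intro s _
    unfold LU
    exact tprod_congr fun v => by rw [h3]
  have htr : (fun v => (A v).trace) = fun v => ∑ j, α v j := funext fun v => (h2 v).symm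
  apply mn_add_const
  have hB : ∀ v, ‖(A v).trace - (c : ℂ)‖ ≤ (Fintype.card κ : ℝ) + ‖(c : ℂ)‖ := fun v =>
    (norm_sub_le _ _).trans (add_le_add_left (norm_tr hA v) _)
  refine taub_mn (B := (Fintype.card κ : ℝ) + ‖(c : ℂ)‖) (by positivity) hB fun s hs => ?_
  rcases hs.eq_or_lt with hs1 | hs1
  · obtain ⟨Λ, h5, h6, h7⟩ := h s.im
    have hs' : (1 : ℂ) + (s.im : ℝ) * I = s := by
      apply Complex.ext <;> simp [← hs1]
    rw [hs'] at h5 h6 h7
    obtain ⟨g, hg1, hg2, hg3⟩ := logd hs1.symm h5 h6 h7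
    have hmem : s ∈ Hp := by
      have : (3 / 4 : ℝ) < s.re := by linarith
      exact this
    have hR : AnalyticAt ℂ (Rt α) s := (diff_Rt h1).analyticAt (isOpen_Hp.mem_nhds hmem)
    obtain ⟨y0, hy0⟩ := boundary (K := K) (Pool.Agent.H484R2.continuation K) hs
    have hD : Tendsto (LSeries fun n => (dd K n : ℂ)) (𝓝[{s : ℂ | 1 < s.re}] s)
        (𝓝 (LSeries (fun n => (dd K n : ℂ)) s)) := by
      have h8 : ContinuousWithinAt (LSeries fun n => (dd K n : ℂ)) {s : ℂ | 1 ≤ s.re} s :=
        cont_dd s hs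
      exact h8.mono_left (nhdsWithin_mono _ fun z (hz : 1 < z.re) => hz.le)
    -- the remaining part
    have hq : ∃ y, Tendsto (fun z => -(deriv (LU A) z / LU A z) - c / (z - 1))
        (𝓝[{s : ℂ | 1 < s.re}] s) (𝓝 y) := by
      by_cases hτ : s.im = 0
      · rw [if_pos hτ] at hg3
        have hs1' : s = 1 := by
          apply Complex.ext
          · simp [← hs1]
          · simp [hτ]
        have h8 : Tendsto (fun z => -(deriv g z / g z)) (𝓝[{s : ℂ | 1 < s.re}] s)
            (𝓝 (-(deriv g s / g s))) :=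
          ((hg1.deriv.continuousAt.div hg1.continuousAt hg2).neg).mono_left nhdsWithin_le_nhds
        refine ⟨_, h8.congr' ?_⟩
        filter_upwards [hg3.filter_mono nhdsWithin_le_nhds, self_mem_nhdsWithin] with z hz hre
        rw [hz hre, hs1']
        push_cast
        ring
      · rw [if_neg hτ] at hg3
        have hne : s - 1 ≠ 0 := by
          intro h9
          apply hτ
          rw [sub_eq_zero] at h9
          rw [h9]
          simp
        have h8 : Tendsto (fun z => -(deriv g z / g z) - c / (z - 1)) (𝓝[{s : ℂ | 1 < s.re}] s)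
            (𝓝 (-(deriv g s / g s) - c / (s - 1))) :=
          (((hg1.deriv.continuousAt.div hg1.continuousAt hg2).neg).sub
            (continuousAt_const.div (continuous_id.sub continuous_const).continuousAt
              hne)).mono_left nhdsWithin_le_nhds
        refine ⟨_, h8.congr' ?_⟩
        filter_upwards [hg3.filter_mono nhdsWithin_le_nhds, self_mem_nhdsWithin] with z hz hre
        rw [hz hre]
        push_cast
        ring
    obtain ⟨y1, hy1⟩ := hq
    have hR' : Tendsto (deriv (Rt α)) (𝓝[{s : ℂ | 1 < s.re}] s) (𝓝 (deriv (Rt α) s)) :=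
      hR.deriv.continuousAt.mono_left nhdsWithin_le_nhds
    refine ⟨_, (((hR'.add hy1).sub (hy0.const_mul (c : ℂ))).add (hD.const_mul (c : ℂ))).congr' ?_⟩
    filter_upwards [self_mem_nhdsWithin] with z hz
    have hz' : 1 < z.re := hz
    rw [S_sub (norm_tr hA) (c : ℂ) hz', S_one hz', htr, (S_eq h1 hL hz').2]
    ring
  · exact ⟨_, (an_S hB hs1).continuousAt.tendsto.mono_left nhdsWithin_le_nhds⟩

end Pool.Agent.Y37.FC
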